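import Pool.Agent.W553.PM.Stm

/-! PM-AFF (project of helper553, MP_ec5bc9_gt). -/

set_option autoImplicit false

namespace Pool.Agent.W925.PM

open Set Filter Topology Pool.Agent.W553.PM

/-- linear part -/
def La (e₁ e₂ : P) (x : P) : P := x.1 • e₁ + x.2 • e₂

/-- affine map -/
def Ax (O e₁ e₂ : P) (x : P) : P := O + x.1 • e₁ + x.2 • e₂

/-- inverse of the linear part -/
noncomputable def Li (e₁ e₂ : P) (w : P) : P := (dt w e₂ / dt e₁ e₂, dt e₁ w / dt e₁ e₂)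

section
variable {O e₁ e₂ : P}

theorem La_fst (x : P) : (La e₁ e₂ x).1 = x.1 * e₁.1 + x.2 * e₂.1 := rfl
theorem La_snd (x : P) : (La e₁ e₂ x).2 = x.1 * e₁.2 + x.2 * e₂.2 := rfl
theorem Ax_fst (x : P) : (Ax O e₁ e₂ x).1 = O.1 + x.1 * e₁.1 + x.2 * e₂.1 := rfl
theorem Ax_snd (x : P) : (Ax O e₁ e₂ x).2 = O.2 + x.1 * e₁.2 + x.2 * e₂.2 := rfl

theorem La_Li (h : dt e₁ e₂ ≠ 0) (w : P) : La e₁ e₂ (Li e₁ e₂ w) = w := by
  apply Prod.ext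
  · rw [La_fst]; simp only [Li]; field_simp; simp only [dt]; ring
  · rw [La_snd]; simp only [Li]; field_simp; simp only [dt]; ring

theorem Li_La (h : dt e₁ e₂ ≠ 0) (w : P) : Li e₁ e₂ (La e₁ e₂ w) = w := by
  apply Prod.ext
  · simp only [Li]; rw [div_eq_iff h]; simp only [dt, La_fst, La_snd]; ring
  · simp only [Li]; rw [div_eq_iff h]; simp only [dt, La_fst, La_snd]; ring

theorem Ax_eq (x : P) : Ax O e₁ e₂ x = O + La e₁ e₂ x := by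
  simp only [Ax, La]; abel

theorem Ax_add (x y : P) : Ax O e₁ e₂ (x + y) = Ax O e₁ e₂ x + La e₁ e₂ y := by
  apply Prod.ext
  · rw [Prod.fst_add, Ax_fst, Ax_fst, La_fst]; simp only [Prod.fst_add, Prod.snd_add]; ring
  · rw [Prod.snd_add, Ax_snd, Ax_snd, La_snd]; simp only [Prod.fst_add, Prod.snd_add]; ring

theorem La_add (x y : P) : La e₁ e₂ (x + y) = La e₁ e₂ x + La e₁ e₂ y := by
  apply Prod.ext
  · rw [Prod.fst_add, La_fst, La_fst, La_fst]; simp only [Prod.fst_add, Prod.snd_add]; ring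
  · rw [Prod.snd_add, La_snd, La_snd, La_snd]; simp only [Prod.fst_add, Prod.snd_add]; ring

theorem La_smul (c : ℝ) (x : P) : La e₁ e₂ (c • x) = c • La e₁ e₂ x := by
  apply Prod.ext
  · rw [Prod.smul_fst, La_fst, La_fst]
    simp only [Prod.smul_fst, Prod.smul_snd, smul_eq_mul]; ring
  · rw [Prod.smul_snd, La_snd, La_snd]
    simp only [Prod.smul_fst, Prod.smul_snd, smul_eq_mul]; ring

theorem dt_La (x y : P) : dt (La e₁ e₂ x) (La e₁ e₂ y) = dt e₁ e₂ * dt x y := by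
  simp only [dt, La_fst, La_snd]; ring

theorem Ax_sub (x y : P) : Ax O e₁ e₂ x - Ax O e₁ e₂ y = La e₁ e₂ (x - y) := by
  apply Prod.ext
  · rw [Prod.fst_sub, Ax_fst, Ax_fst, La_fst]; simp only [Prod.fst_sub, Prod.snd_sub]; ring
  · rw [Prod.snd_sub, Ax_snd, Ax_snd, La_snd]; simp only [Prod.fst_sub, Prod.snd_sub]; ring

theorem Ax_comb (x y : P) (a b : ℝ) (hab : a + b = 1) :
    Ax O e₁ e₂ (a • x + b • y) = a • Ax O e₁ e₂ x + b • Ax O e₁ e₂ y := by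
  apply Prod.ext
  · simp only [Prod.fst_add, Prod.smul_fst, smul_eq_mul, Ax_fst, Prod.snd_add, Prod.smul_snd]
    linear_combination (-O.1) * hab
  · simp only [Prod.fst_add, Prod.smul_fst, smul_eq_mul, Ax_snd, Prod.snd_add, Prod.smul_snd]
    linear_combination (-O.2) * hab

/-- the affine homeomorphism -/
noncomputable def Ah (O e₁ e₂ : P) (h : dt e₁ e₂ ≠ 0) : P ≃ₜ P where
  toFun := Ax O e₁ e₂
  invFun := fun Z => Li e₁ e₂ (Z - O)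
  left_inv := fun x => by
    change Li e₁ e₂ (Ax O e₁ e₂ x - O) = x
    rw [Ax_eq, add_sub_cancel_left, Li_La h]
  right_inv := fun Z => by
    change Ax O e₁ e₂ (Li e₁ e₂ (Z - O)) = Z
    rw [Ax_eq, La_Li h]; abel
  continuous_toFun := by unfold Ax; fun_prop
  continuous_invFun := by unfold Li dt; fun_prop

theorem Ax_inj (h : dt e₁ e₂ ≠ 0) {x y : P} (hxy : Ax O e₁ e₂ x = Ax O e₁ e₂ y) : x = y :=
  (Ah O e₁ e₂ h).injective hxy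

theorem Ax_surj (h : dt e₁ e₂ ≠ 0) (Z : P) : ∃ x, Ax O e₁ e₂ x = Z :=
  (Ah O e₁ e₂ h).surjective Z

theorem La_ne (h : dt e₁ e₂ ≠ 0) {u : P} (hu : u ≠ 0) : La e₁ e₂ u ≠ 0 := by
  intro h0
  apply hu
  rw [← Li_La h u, h0]
  simp [Li, dt]

theorem Ln_iff (h : dt e₁ e₂ ≠ 0) (x u X : P) :
    Ax O e₁ e₂ X ∈ Ln (Ax O e₁ e₂ x) (La e₁ e₂ u) ↔ X ∈ Ln x u := by
  constructor
  · rintro ⟨t, ht⟩
    refine ⟨t, Ax_inj (O := O) h ?_⟩
    rw [ht, Ax_add, La_smul]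
  · rintro ⟨t, rfl⟩
    exact ⟨t, by rw [Ax_add, La_smul]⟩

theorem Par_iff (h : dt e₁ e₂ ≠ 0) (a b c X : P) :
    Ax O e₁ e₂ X ∈ Par (Ax O e₁ e₂ a) (La e₁ e₂ b) (La e₁ e₂ c) ↔ X ∈ Par a b c := by
  constructor
  · rintro ⟨t, ht⟩
    refine ⟨t, Ax_inj (O := O) h ?_⟩
    simp only at ht ⊢
    rw [← ht, Ax_add, Ax_add, La_smul, La_smul]
  · rintro ⟨t, rfl⟩
    exact ⟨t, by simp only; rw [Ax_add, Ax_add, La_smul, La_smul]⟩

theorem hL_Ax (h : dt e₁ e₂ ≠ 0) (M : Set P) (d : P → P → ℝ) (x u X : P) :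
    hL {x : P | Ax O e₁ e₂ x ∈ M} (fun x y => d (Ax O e₁ e₂ x) (Ax O e₁ e₂ y)) x u X =
      hL M d (Ax O e₁ e₂ x) (La e₁ e₂ u) (Ax O e₁ e₂ X) := by
  unfold hL
  congr 1
  ext r
  constructor
  · rintro ⟨Y, ⟨hY1, hY2⟩, rfl⟩
    exact ⟨Ax O e₁ e₂ Y, ⟨(Ln_iff h x u Y).2 hY1, hY2⟩, rfl⟩
  · rintro ⟨Y, ⟨hY1, hY2⟩, rfl⟩
    obtain ⟨y, rfl⟩ := Ax_surj (O := O) h Y
    exact ⟨y, ⟨(Ln_iff h x u y).1 hY1, hY2⟩, rfl⟩

theorem aff_met (h : dt e₁ e₂ ≠ 0) {M : Set P} {d : P → P → ℝ} (H : PMet M d) :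
    PMet {x : P | Ax O e₁ e₂ x ∈ M} (fun x y => d (Ax O e₁ e₂ x) (Ax O e₁ e₂ y)) := by
  have hopen : IsOpen {x : P | Ax O e₁ e₂ x ∈ M} :=
    H.opn.preimage (Ah O e₁ e₂ h).continuous
  refine ⟨hopen, ?_, ?_, ?_, ?_, ?_, ?_, ?_, ?_, ?_⟩
  · intro x hx y hy a b ha hb hab
    simp only [mem_setOf_eq] at hx hy ⊢
    rw [Ax_comb x y a b hab]
    exact H.cvx hx hy ha hb hab
  · obtain ⟨Z, hZ⟩ := H.ne
    obtain ⟨x, rfl⟩ := Ax_surj (O := O) h Z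
    exact ⟨x, hZ⟩
  · intro x hx y hy
    rw [H.zero _ hx _ hy]
    exact ⟨fun e => Ax_inj h e, fun e => by rw [e]⟩
  · intro x hx y hy
    exact H.symm _ hx _ hy
  · intro x hx y hy z hz
    exact H.tri _ hx _ hy _ hz
  · intro x hx
    have h1 := H.basis _ hx
    rw [H.opn.nhdsWithin_eq hx] at h1
    have h2 := h1.comap (Ah O e₁ e₂ h)
    have h3 : nhdsWithin x {x : P | Ax O e₁ e₂ x ∈ M} =
        Filter.comap (Ah O e₁ e₂ h) (𝓝 (Ax O e₁ e₂ x)) := by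
      rw [hopen.nhdsWithin_eq hx]
      exact (Ah O e₁ e₂ h).isInducing.nhds_eq_comap x
    rw [h3]
    exact h2
  · intro x hx y hy z hz hyz
    refine H.seg _ hx _ hy _ hz ?_
    obtain ⟨a, b, ha, hb, hab, rfl⟩ := hyz
    exact ⟨a, b, ha, hb, hab, (Ax_comb x z a b hab).symm⟩
  · intro x hx y hy z hz hne
    refine H.strict _ hx _ hy _ hz ?_
    rw [Ax_sub, Ax_sub, dt_La]
    exact mul_ne_zero h hne
  · intro x hx u hu F hF hFL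
    have hFL' : Ax O e₁ e₂ F ∉ Ln (Ax O e₁ e₂ x) (La e₁ e₂ u) := fun h' =>
      hFL ((Ln_iff h x u F).1 h')
    obtain ⟨a, b, c, hbc, hset⟩ := H.conic _ hx _ (La_ne h hu) _ hF hFL'
    obtain ⟨a', rfl⟩ := Ax_surj (O := O) h a
    obtain ⟨b', hb'⟩ : ∃ b', La e₁ e₂ b' = b := ⟨_, La_Li h b⟩
    obtain ⟨c', hc'⟩ : ∃ c', La e₁ e₂ c' = c := ⟨_, La_Li h c⟩
    subst hb' hc'
    refine ⟨a', b', c', ?_, ?_⟩
    · intro h0
      apply hbc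
      rw [dt_La, h0, mul_zero]
    · ext X
      have h1 := Set.ext_iff.1 hset (Ax O e₁ e₂ X)
      simp only [mem_setOf_eq, mem_inter_iff] at h1 ⊢
      rw [hL_Ax h, h1, Par_iff h]

end

theorem T_aff : S_aff := by
  intro M d n H Hn O e₁ e₂ h
  refine ⟨aff_met h H, fun x u => Li e₁ e₂ (dt e₁ e₂ • n (Ax O e₁ e₂ x) (La e₁ e₂ u)), ?_, ?_⟩
  swap
  · intro x u
    exact La_Li h _
  · have key : ∀ x u : P, La e₁ e₂ (Li e₁ e₂ (dt e₁ e₂ • n (Ax O e₁ e₂ x) (La e₁ e₂ u))) =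
        dt e₁ e₂ • n (Ax O e₁ e₂ x) (La e₁ e₂ u) := fun x u => La_Li h _
    refine ⟨?_, ?_, ?_⟩
    · intro x hx u hu
      have h1 := Hn.n1 _ hx _ (La_ne h hu)
      have h2 := dt_La (e₁ := e₁) (e₂ := e₂) u
        (Li e₁ e₂ (dt e₁ e₂ • n (Ax O e₁ e₂ x) (La e₁ e₂ u)))
      rw [key] at h2
      have h3 : dt (La e₁ e₂ u) (dt e₁ e₂ • n (Ax O e₁ e₂ x) (La e₁ e₂ u)) =
          dt e₁ e₂ * dt (La e₁ e₂ u) (n (Ax O e₁ e₂ x) (La e₁ e₂ u)) := by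
        generalize n (Ax O e₁ e₂ x) (La e₁ e₂ u) = w
        generalize La e₁ e₂ u = v
        generalize dt e₁ e₂ = D
        simp only [dt, Prod.smul_fst, Prod.smul_snd, smul_eq_mul]; ring
      change dt (La e₁ e₂ u) (n (Ax O e₁ e₂ x) (La e₁ e₂ u)) = 1 at h1
      rw [h3, h1] at h2
      exact (mul_left_cancel₀ h h2).symm
    · intro x hx u hu l t ht hl htu
      have e1 : Ax O e₁ e₂ (x + l • Li e₁ e₂ (dt e₁ e₂ • n (Ax O e₁ e₂ x) (La e₁ e₂ u))) =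
          Ax O e₁ e₂ x + (l * dt e₁ e₂) • n (Ax O e₁ e₂ x) (La e₁ e₂ u) := by
        rw [Ax_add, La_smul, key, smul_smul]
      have e2 : Ax O e₁ e₂ (x + t • u) = Ax O e₁ e₂ x + t • La e₁ e₂ u := by
        rw [Ax_add, La_smul]
      have hx' : Ax O e₁ e₂ x ∈ M := hx
      have h1 := Hn.n2 (Ax O e₁ e₂ x) hx' _ (La_ne h hu) (l * dt e₁ e₂) t ht
        (by rw [← e1]; exact hl) (by rw [← e2]; exact htu)
      rw [← e1, ← e2] at h1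
      exact h1
    · intro x hx u hu X hX hmin
      have hx' : Ax O e₁ e₂ x ∈ M := hx
      obtain ⟨l, hl⟩ := Hn.n3 (Ax O e₁ e₂ x) hx' _ (La_ne h hu) (Ax O e₁ e₂ X) hX (fun t ht => by
        have e2 : Ax O e₁ e₂ (x + t • u) = Ax O e₁ e₂ x + t • La e₁ e₂ u := by
          rw [Ax_add, La_smul]
        have h1 := hmin t (by
          change Ax O e₁ e₂ (x + t • u) ∈ M
          rw [e2]; exact ht)
        change d (Ax O e₁ e₂ X) (Ax O e₁ e₂ x) ≤ d (Ax O e₁ e₂ X) (Ax O e₁ e₂ (x + t • u)) at h1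
        rw [e2] at h1
        exact h1)
      refine ⟨l / dt e₁ e₂, Ax_inj (O := O) h ?_⟩
      have e1 : Ax O e₁ e₂ (x + (l / dt e₁ e₂) •
          Li e₁ e₂ (dt e₁ e₂ • n (Ax O e₁ e₂ x) (La e₁ e₂ u))) =
          Ax O e₁ e₂ x + l • n (Ax O e₁ e₂ x) (La e₁ e₂ u) := by
        rw [Ax_add, La_smul, key, smul_smul, div_mul_cancel₀ _ h]
      rw [e1]
      exact hl

end Pool.Agent.W925.PM
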