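import Pool.Agent.W553.PM.Stm

/-! PM-CLIM (project of helper553, MP_ec5bc9_gt). -/

set_option autoImplicit false

namespace Pool.Agent.W925.PM

open Set Filter Topology Pool.Agent.W553.PM

theorem T_impl : S_impl := by
  intro a b c hD o e₁ e₂ he
  set D := dt b c with hDd
  set α := dt (o - a) c with hα
  set β := dt e₁ c with hβ
  set γ := dt e₂ c with hγ
  set α' := dt b (o - a) with hα'
  set β' := dt b e₁ with hβ'
  set γ' := dt b e₂ with hγ'
  refine ⟨![β ^ 2, 2 * β * γ, γ ^ 2, 2 * α * β - D * β', 2 * α * γ - D * γ', α ^ 2 - D * α'],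
    ?_, ?_, ?_⟩
  · intro h
    have h0 := congrFun h 0
    have h3 := congrFun h 3
    simp only [Matrix.cons_val, Pi.zero_apply] at h0 h3
    have hb : β = 0 := by
      have : β ^ 2 = 0 := h0
      exact pow_eq_zero_iff (two_ne_zero) |>.1 this
    have hb' : β' = 0 := by
      have h4 : D * β' = 0 := by
        have h5 : 2 * α * β - D * β' = 0 := h3
        rw [hb] at h5; linarith
      exact (mul_eq_zero.1 h4).resolve_left hD
    have e1 : D * e₁.1 = β * b.1 + β' * c.1 := by
      rw [hDd, hβ, hβ']; simp only [dt]; ring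
    have e2 : D * e₁.2 = β * b.2 + β' * c.2 := by
      rw [hDd, hβ, hβ']; simp only [dt]; ring
    rw [hb, hb', zero_mul, zero_mul, add_zero] at e1 e2
    have e3 := (mul_eq_zero.1 e1).resolve_left hD
    have e4 := (mul_eq_zero.1 e2).resolve_left hD
    apply he
    simp only [dt, e3, e4]; ring
  · simp only [disc, Matrix.cons_val]
    ring
  · intro x
    have hs : dt (o + x.1 • e₁ + x.2 • e₂ - a) c = α + β * x.1 + γ * x.2 := by
      rw [hα, hβ, hγ]
      simp only [dt, Prod.fst_add, Prod.snd_add, Prod.fst_sub, Prod.snd_sub, Prod.smul_fst,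
        Prod.smul_snd, smul_eq_mul]
      ring
    have ht : dt b (o + x.1 • e₁ + x.2 • e₂ - a) = α' + β' * x.1 + γ' * x.2 := by
      rw [hα', hβ', hγ']
      simp only [dt, Prod.fst_add, Prod.snd_add, Prod.fst_sub, Prod.snd_sub, Prod.smul_fst,
        Prod.smul_snd, smul_eq_mul]
      ring
    have hev : ev ![β ^ 2, 2 * β * γ, γ ^ 2, 2 * α * β - D * β', 2 * α * γ - D * γ',
        α ^ 2 - D * α'] x = (dt (o + x.1 • e₁ + x.2 • e₂ - a) c) ^ 2 -
        D * dt b (o + x.1 • e₁ + x.2 • e₂ - a) := by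
      rw [hs, ht]
      simp only [ev, Matrix.cons_val]
      ring
    rw [hev]
    generalize o + x.1 • e₁ + x.2 • e₂ = Z
    constructor
    · rintro ⟨t, rfl⟩
      rw [hDd]
      simp only [dt, Prod.fst_add, Prod.snd_add, Prod.fst_sub, Prod.snd_sub, Prod.smul_fst,
        Prod.smul_snd, smul_eq_mul]
      ring
    · intro h
      refine ⟨dt (Z - a) c / D, ?_⟩
      have h1 : D * Z.1 = D * a.1 + dt (Z - a) c * b.1 + dt b (Z - a) * c.1 := by
        rw [hDd]; simp only [dt, Prod.fst_sub, Prod.snd_sub]; ring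
      have h2 : D * Z.2 = D * a.2 + dt (Z - a) c * b.2 + dt b (Z - a) * c.2 := by
        rw [hDd]; simp only [dt, Prod.fst_sub, Prod.snd_sub]; ring
      have h3 : dt b (Z - a) = (dt (Z - a) c) ^ 2 / D := by
        field_simp
        linarith
      rw [h3] at h1 h2
      apply Prod.ext
      · simp only [Prod.fst_add, Prod.smul_fst, smul_eq_mul]
        have : Z.1 = (D * a.1 + dt (Z - a) c * b.1 + (dt (Z - a) c) ^ 2 / D * c.1) / D := by
          field_simp; field_simp at h1; linarith
        conv_rhs => rw [this]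
        field_simp
      · simp only [Prod.snd_add, Prod.smul_snd, smul_eq_mul]
        have : Z.2 = (D * a.2 + dt (Z - a) c * b.2 + (dt (Z - a) c) ^ 2 / D * c.2) / D := by
          field_simp; field_simp at h2; linarith
        conv_rhs => rw [this]
        field_simp

theorem ev_smul (r : ℝ) (q : Fin 6 → ℝ) (x : P) : ev (r • q) x = r * ev q x := by
  simp only [ev, Pi.smul_apply, smul_eq_mul]; ring

theorem disc_smul (r : ℝ) (q : Fin 6 → ℝ) : disc (r • q) = r ^ 2 * disc q := by
  simp only [disc, Pi.smul_apply, smul_eq_mul]; ring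

theorem cont_ev : Continuous (fun z : (Fin 6 → ℝ) × P => ev z.1 z.2) := by
  unfold ev; fun_prop

theorem cont_disc : Continuous (fun q : Fin 6 → ℝ => disc q) := by
  unfold disc; fun_prop

theorem T_clim : S_clim := by
  intro ι x xl q hq hx hev
  let r : ℕ → (Fin 6 → ℝ) := fun k => ‖q k‖⁻¹ • q k
  have hr : ∀ k, r k ∈ Metric.sphere (0 : Fin 6 → ℝ) 1 := by
    intro k
    rw [mem_sphere_zero_iff_norm, norm_smul, norm_inv, norm_norm]
    exact inv_mul_cancel₀ (norm_ne_zero_iff.2 (hq k).1)
  obtain ⟨q', hq', φ, hφ, hlim⟩ := (isCompact_sphere (0 : Fin 6 → ℝ) 1).tendsto_subseq hr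
  refine ⟨q', ?_, ?_, ?_⟩
  · rw [mem_sphere_zero_iff_norm] at hq'
    intro h
    rw [h, norm_zero] at hq'
    exact zero_ne_one hq'
  · have h1 : Tendsto (fun k => disc (r (φ k))) atTop (𝓝 (disc q')) :=
      (cont_disc.tendsto q').comp hlim
    have h2 : (fun k => disc (r (φ k))) = fun _ => 0 := by
      funext k
      simp only [r, disc_smul, (hq (φ k)).2, mul_zero]
    rw [h2] at h1
    exact tendsto_nhds_unique h1 tendsto_const_nhds |>.symm ▸ rfl
  · intro i
    have h1 : Tendsto (fun k => ev (r (φ k)) (x i (φ k))) atTop (𝓝 (ev q' (xl i))) :=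
      (cont_ev.tendsto (q', xl i)).comp (hlim.prodMk_nhds ((hx i).comp hφ.tendsto_atTop))
    have h2 : Tendsto (fun k => ev (r (φ k)) (x i (φ k))) atTop (𝓝 0) := by
      refine tendsto_const_nhds.congr' ?_
      filter_upwards [hφ.tendsto_atTop.eventually (hev i)] with k hk
      simp only [r, ev_smul, hk, mul_zero]
    exact tendsto_nhds_unique h1 h2

end Pool.Agent.W925.PM
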