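import Pool.Agent.W553.PM.Stm

/-! PM-ELL (project of helper553, MP_ec5bc9_gt). -/

set_option autoImplicit false

namespace Pool.Agent.W925.PM.Ell

open Set Filter Topology Pool.Agent.W553.PM

theorem ww_ne (φ : ℝ) : ww φ ≠ 0 := by
  intro h
  have h1 : -Real.sin φ = 0 := congrArg Prod.fst h
  have h2 : Real.cos φ = 0 := congrArg Prod.snd h
  have h3 := Real.sin_sq_add_cos_sq φ
  rw [neg_eq_zero.1 h1, h2] at h3
  norm_num at h3

theorem cont_ww : Continuous ww := by unfold ww; fun_prop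

theorem ip_cont : Continuous (fun z : P × P => ip z.1 z.2) := by unfold ip; fun_prop

theorem ip_ee_aa (n : P → P → P) (Y : P) (φ : ℝ) : ip (ee φ) (aa n Y φ) = 1 := by
  have h := Real.sin_sq_add_cos_sq φ
  simp only [ip, aa, ee, ww, Prod.fst_add, Prod.snd_add, Prod.smul_fst, Prod.smul_snd, smul_eq_mul]
  linear_combination h

theorem n_ww_aux (φ : ℝ) (v : P) (h1 : dt (ww φ) v = 1) :
    v = -(ee φ + (-ip (ww φ) v) • ww φ) := by
  have h := Real.sin_sq_add_cos_sq φ
  simp only [dt, ww] at h1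
  apply Prod.ext
  · simp only [ip, ee, ww, Prod.fst_neg, Prod.fst_add, Prod.smul_fst, smul_eq_mul]
    linear_combination (-Real.cos φ) * h1 - v.1 * h
  · simp only [ip, ee, ww, Prod.snd_neg, Prod.snd_add, Prod.smul_snd, smul_eq_mul]
    linear_combination (-Real.sin φ) * h1 - v.2 * h

theorem n_ww {M : Set P} {d : P → P → ℝ} {n : P → P → P} (Hn : Perp M d n) {O : P} (hO : O ∈ M)
    (φ : ℝ) : n O (ww φ) = -aa n O φ :=
  n_ww_aux φ _ (Hn.n1 O hO (ww φ) (ww_ne φ))

theorem exists_polar (u : P) (hu : u ≠ 0) : ∃ c φ : ℝ, c ≠ 0 ∧ u = c • ww φ := by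
  let z : ℂ := ⟨u.2, -u.1⟩
  have hz : z ≠ 0 := by
    intro h
    apply hu
    have h1 := congrArg Complex.re h
    have h2 := congrArg Complex.im h
    simp only [z, Complex.zero_re, Complex.zero_im] at h1 h2
    exact Prod.ext (neg_eq_zero.1 h2) h1
  refine ⟨‖z‖, Complex.arg z, norm_ne_zero_iff.2 hz, ?_⟩
  have h1 := Complex.norm_mul_cos_arg z
  have h2 := Complex.norm_mul_sin_arg z
  apply Prod.ext
  · simp only [ww, Prod.smul_fst, smul_eq_mul]
    have : z.im = -u.1 := rfl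
    rw [this] at h2
    linarith
  · simp only [ww, Prod.smul_snd, smul_eq_mul]
    have : z.re = u.2 := rfl
    rw [this] at h1
    linarith

theorem T_ell (hnc : S_ncont) (hnh : S_nhom) (hG : S_G) (hmi : S_micro) (him : S_impl)
    (hcl : S_clim) (hea : S_ellalg) : S_ell := by
  intro M d n H Hn O hO
  have Hc : NCont M n := hnc M d n H Hn
  obtain ⟨hG1, hG2⟩ := hG M d n H Hn Hc O hO
  -- continuity of T
  have hnw : Continuous (fun φ => n O (ww φ)) := by
    have h1 : ContinuousOn (fun φ : ℝ => n O (ww φ)) univ :=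
      Hc.comp ((continuous_const.prodMk cont_ww).continuousOn (s := univ))
        (fun φ _ => ⟨hO, ww_ne φ⟩)
    exact continuousOn_univ.1 h1
  have hT : Continuous (TT n O) := by
    unfold TT
    exact (ip_cont.comp (cont_ww.prodMk hnw)).neg
  have hGpos : ∀ φ, 0 < GG n O φ := fun φ => Real.exp_pos _
  have hGd : ∀ φ, HasDerivAt (GG n O) (GG n O φ * TT n O φ) φ := by
    intro φ
    have h1 : HasDerivAt (fun φ => ∫ t in (0 : ℝ)..φ, TT n O t) (TT n O φ) φ :=
      intervalIntegral.integral_hasDerivAt_right (hT.intervalIntegrable _ _)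
        (hT.stronglyMeasurableAtFilter _ _) hT.continuousAt
    exact h1.exp
  have hTp : ∀ φ, TT n O (φ + Real.pi) = TT n O φ := by
    intro φ
    have h1 : ww (φ + Real.pi) = (-1 : ℝ) • ww φ := by
      apply Prod.ext
      · simp only [ww, Real.sin_add_pi, Prod.smul_fst, smul_eq_mul]; ring
      · simp only [ww, Real.cos_add_pi, Prod.smul_snd, smul_eq_mul]; ring
    unfold TT
    rw [h1, hnh M d n H Hn O hO (ww φ) (ww_ne φ) (-1) (by norm_num)]
    simp only [ip, Prod.smul_fst, Prod.smul_snd, smul_eq_mul]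
    norm_num
  -- the sequence of scales
  have hF : ∀ᶠ p : ℝ in 𝓝 0, O + p • aa n O 0 ∈ M := by
    have hc : Continuous (fun p : ℝ => O + p • aa n O 0) := by fun_prop
    have : (fun p : ℝ => O + p • aa n O 0) 0 ∈ M := by simpa using hO
    exact hc.continuousAt.eventually (H.opn.mem_nhds this)
  obtain ⟨p₁, hp₁, hpM⟩ := Metric.eventually_nhds_iff.1 hF
  let pk : ℕ → ℝ := fun k => p₁ / 2 / ((k : ℝ) + 1)
  have hpk : ∀ k, 0 < pk k := fun k => by positivity
  have hpkM : ∀ k, O + pk k • aa n O 0 ∈ M := by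
    intro k
    apply hpM
    rw [Real.dist_eq, sub_zero, abs_of_pos (hpk k)]
    have h1 : pk k ≤ p₁ / 2 := by
      apply div_le_self (by positivity)
      have : (0 : ℝ) ≤ k := Nat.cast_nonneg k
      linarith
    linarith
  have hpk0 : Tendsto pk atTop (𝓝[>] 0) := by
    refine tendsto_nhdsWithin_iff.2 ⟨?_, Eventually.of_forall hpk⟩
    have h1 := tendsto_one_div_add_atTop_nhds_zero_nat (𝕜 := ℝ)
    have h2 := h1.const_mul (p₁ / 2)
    rw [mul_zero] at h2
    refine h2.congr fun k => ?_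
    simp only [pk]; ring
  -- the conics
  have hw0 : ww 0 = (0, 1) := by simp [ww]
  have hFL : ∀ k, O + pk k • aa n O 0 ∉ Ln O (ww 0) := by
    rintro k ⟨t, ht⟩
    have h1 : pk k • aa n O 0 = t • ww 0 := add_left_cancel ht
    have h2 := congrArg (fun v => ip (ee 0) v) h1
    have h3 : ip (ee 0) (pk k • aa n O 0) = pk k * ip (ee 0) (aa n O 0) := by
      simp only [ip, Prod.smul_fst, Prod.smul_snd, smul_eq_mul]; ring
    have h4 : ip (ee 0) (t • ww 0) = 0 := by
      simp [ip, ee, ww]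
    simp only [h3, h4, ip_ee_aa, mul_one] at h2
    exact (hpk k).ne' h2
  have hcon := fun k => H.conic O hO (ww 0) (ww_ne 0) _ (hpkM k) (hFL k)
  choose a b c hbc hset using hcon
  have hdt : ∀ k, dt (pk k, 0) (0, pk k) ≠ 0 := by
    intro k
    simp only [dt]
    have := hpk k
    have h2 : 0 < pk k * pk k - 0 * 0 := by nlinarith
    exact h2.ne'
  have himp := fun k => him (a k) (b k) (c k) (hbc k) O (pk k, 0) (0, pk k) (hdt k)
  choose q hq0 hqd hqe using himp
  -- the points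
  let ι : Type := {φ : ℝ // φ ∈ Icc (-Real.pi) Real.pi ∧
    0 < GG n O 0 + GG n O φ * ip (ee 0) (aa n O φ)}
  have hmic : ∀ i : ι, ∃ X : ℝ → P,
      (∀ᶠ p in 𝓝[>] (0 : ℝ), X p ∈ M ∧
        d (X p) (O + p • aa n O 0) = hL M d O (ww 0) (X p)) ∧
      Tendsto (fun p : ℝ => p⁻¹ • (X p - O)) (𝓝[>] 0)
        (𝓝 (aa n O 0 - (GG n O i.1 / (GG n O 0 + GG n O i.1 * ip (ee 0) (aa n O i.1)))
          • aa n O i.1)) := by
    rintro ⟨φ, hφ, hpos⟩
    have hpi := Real.pi_lt_four
    exact hmi M d n H Hn Hc O hO 0 ⟨by norm_num, by norm_num⟩ φ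
      ⟨by linarith [hφ.1], by linarith [hφ.2]⟩ hpos
  choose X hX1 hX2 using hmic
  obtain ⟨q', hq'0, _, hq'⟩ := hcl ι (fun i k => (pk k)⁻¹ • (X i (pk k) - O))
    (fun i => aa n O 0 - (GG n O i.1 / (GG n O 0 + GG n O i.1 * ip (ee 0) (aa n O i.1)))
          • aa n O i.1) q (fun k => ⟨hq0 k, hqd k⟩)
    (fun i => (hX2 i).comp hpk0) (fun i => by
      filter_upwards [hpk0.eventually (hX1 i)] with k hk
      rw [← hqe k]
      have h1 : O + ((pk k)⁻¹ • (X i (pk k) - O)).1 • ((pk k, 0) : P) +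
          ((pk k)⁻¹ • (X i (pk k) - O)).2 • ((0, pk k) : P) = X i (pk k) := by
        have hne := (hpk k).ne'
        apply Prod.ext
        · simp only [Prod.fst_add, Prod.smul_fst, Prod.fst_sub, smul_eq_mul]
          field_simp; ring
        · simp only [Prod.snd_add, Prod.smul_snd, Prod.snd_sub, smul_eq_mul]
          field_simp; ring
      rw [h1]
      have h2 := (Set.ext_iff.1 (hset k) (X i (pk k))).1 ⟨hk.1, hk.2⟩
      exact h2.2)
  obtain ⟨A, B, C, hA, hdet, hbf⟩ := hea (GG n O) (TT n O) hT hGpos hGd hG1 hTp hG2 0 q' hq'0 (by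
    intro φ hφ hpos
    rw [zero_sub, zero_add] at hφ
    exact hq' ⟨φ, hφ, hpos⟩)
  refine ⟨A, B, C, hA, hdet, ?_⟩
  intro u hu
  obtain ⟨c, φ, hc, rfl⟩ := exists_polar u hu
  rw [hnh M d n H Hn O hO (ww φ) (ww_ne φ) c hc, n_ww Hn hO]
  have h1 := hbf φ
  have h2 : aa n O φ = ee φ + TT n O φ • ww φ := rfl
  rw [← h2] at h1
  generalize aa n O φ = v at h1
  generalize ww φ = w at h1
  simp only [bf, Prod.smul_fst, Prod.smul_snd, smul_eq_mul, Prod.fst_neg, Prod.snd_neg] at h1 ⊢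
  field_simp
  linear_combination -h1

end Pool.Agent.W925.PM.Ell
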