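import Pool.Agent.W553.PM.Stm

/-! PM-LIP (project of helper553, MP_ec5bc9_gt). -/

set_option autoImplicit false

namespace Pool.Agent.W925.PM

open Set Filter Topology Pool.Agent.W553.PM

theorem eq_smul_of_dt {u w : P} (hu : u ≠ 0) (h : dt u w = 0) : ∃ k : ℝ, w = k • u := by
  by_cases h1 : u.1 = 0
  · have h2 : u.2 ≠ 0 := fun h2 => hu (Prod.ext h1 h2)
    refine ⟨w.2 / u.2, ?_⟩
    have h3 : w.1 = 0 := by
      simp only [dt, h1] at h
      have : u.2 * w.1 = 0 := by linarith
      exact (mul_eq_zero.1 this).resolve_left h2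
    apply Prod.ext
    · simp only [Prod.smul_fst, smul_eq_mul, h1, h3, mul_zero]
    · simp only [Prod.smul_snd, smul_eq_mul]; field_simp
  · refine ⟨w.1 / u.1, ?_⟩
    simp only [dt] at h
    apply Prod.ext
    · simp only [Prod.smul_fst, smul_eq_mul]; field_simp
    · simp only [Prod.smul_snd, smul_eq_mul]; field_simp; linarith

theorem T_lip : S_lip := by
  intro M d n H Hn Hc O hO
  obtain ⟨R0, hR0, hball⟩ := Metric.isOpen_iff.1 H.opn O hO
  set R : ℝ := R0 / 4 with hR
  have hRpos : 0 < R := by positivity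
  have hM : ∀ Y : P, dist Y O ≤ 2 * R → Y ∈ M := by
    intro Y hY
    apply hball
    rw [Metric.mem_ball]
    have : 2 * R < R0 := by rw [hR]; linarith
    linarith
  -- the bound K
  have hcomp : IsCompact (Metric.closedBall O R ×ˢ Metric.sphere (0 : P) 1) :=
    (isCompact_closedBall O R).prod (isCompact_sphere 0 1)
  have hcont : ContinuousOn (fun p : P × P => n p.1 p.2)
      (Metric.closedBall O R ×ˢ Metric.sphere (0 : P) 1) := by
    refine Hc.mono ?_
    rintro ⟨Y, u⟩ ⟨hY, hu⟩
    refine ⟨hM Y ?_, ?_⟩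
    · rw [Metric.mem_closedBall] at hY
      simp only at hY ⊢
      linarith
    · simp only [mem_setOf_eq]
      rintro h0
      rw [mem_sphere_zero_iff_norm] at hu
      simp only at hu
      rw [h0, norm_zero] at hu
      exact zero_ne_one hu
  obtain ⟨K0, hK0⟩ := hcomp.exists_bound_of_continuousOn hcont
  set K : ℝ := max K0 1 with hK
  have hK1 : 1 ≤ K := le_max_right _ _
  have hKb : ∀ Y u : P, dist Y O ≤ R → ‖u‖ = 1 → ‖n Y u‖ ≤ K := by
    intro Y u hY hu
    refine (hK0 (Y, u) ⟨?_, ?_⟩).trans (le_max_left _ _)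
    · rw [Metric.mem_closedBall]; exact hY
    · rw [mem_sphere_zero_iff_norm]; exact hu
  refine ⟨R / 4, by positivity, 2 * K / R, ?_⟩
  intro Y hY u hu t ht
  have hu0 : u ≠ 0 := by
    rintro rfl
    rw [norm_zero] at hu
    exact zero_ne_one hu
  have hYM : Y ∈ M := hM Y (by linarith)
  have hY' : dist (Y + t • u) O ≤ R / 2 := by
    rw [dist_eq_norm] at hY ⊢
    have h1 : Y + t • u - O = (Y - O) + t • u := by abel
    rw [h1]
    refine (norm_add_le _ _).trans ?_
    rw [norm_smul, hu, mul_one, Real.norm_eq_abs]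
    linarith
  have hYM' : Y + t • u ∈ M := hM _ (by linarith)
  refine ⟨hYM, hYM', ?_⟩
  have h1 := Hn.n1 Y hYM u hu0
  have h2 := Hn.n1 _ hYM' u hu0
  have h3 : dt u (n (Y + t • u) u - n Y u) = 0 := by
    simp only [dt, Prod.fst_sub, Prod.snd_sub] at h1 h2 ⊢
    linear_combination h2 - h1
  obtain ⟨k, hk⟩ := eq_smul_of_dt hu0 h3
  rw [hk, norm_smul, hu, mul_one, Real.norm_eq_abs]
  by_cases hk0 : k = 0
  · rw [hk0, abs_zero]; positivity
  by_cases ht0 : t = 0
  · exfalso
    apply hk0
    rw [ht0, zero_smul, add_zero, sub_self] at hk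
    exact (smul_eq_zero.1 hk.symm).resolve_right hu0
  by_contra hcon
  push Not at hcon
  have hkpos : 0 < |k| := abs_pos.2 hk0
  -- the intersection point
  have hnK := hKb Y u (by linarith) hu
  have hlt : |t / k| * K < R / 2 := by
    rw [abs_div, div_mul_eq_mul_div, div_lt_iff₀ hkpos]
    have h4 : 2 * K / R * |t| * R = 2 * (|t| * K) := by field_simp
    have h5 := mul_lt_mul_of_pos_right hcon hRpos
    rw [h4] at h5
    linarith
  have hZ : Y + (-(t / k)) • n Y u = (Y + t • u) + (-(t / k)) • n (Y + t • u) u := by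
    have h6 : n (Y + t • u) u = n Y u + k • u := by rw [← hk]; abel
    rw [h6, smul_add, smul_smul]
    have h7 : -(t / k) * k = -t := by field_simp
    rw [h7, neg_smul]
    module
  have hZM : Y + (-(t / k)) • n Y u ∈ M := by
    apply hM
    rw [dist_eq_norm] at hY ⊢
    have h8 : Y + (-(t / k)) • n Y u - O = (Y - O) + (-(t / k)) • n Y u := by abel
    rw [h8]
    refine (norm_add_le _ _).trans ?_
    rw [norm_smul, Real.norm_eq_abs, abs_neg]
    have h9 : |t / k| * ‖n Y u‖ ≤ |t / k| * K := mul_le_mul_of_nonneg_left hnK (abs_nonneg _)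
    linarith
  have a1 := Hn.n2 Y hYM u hu0 (-(t / k)) t ht0 hZM hYM'
  have a2 := Hn.n2 (Y + t • u) hYM' u hu0 (-(t / k)) (-t) (neg_ne_zero.2 ht0)
    (by rw [← hZ]; exact hZM) (by
      have : Y + t • u + (-t) • u = Y := by module
      rw [this]; exact hYM)
  have h10 : Y + t • u + (-t) • u = Y := by module
  rw [h10, ← hZ] at a2
  exact lt_asymm a1 a2

end Pool.Agent.W925.PM
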