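import Pool.Agent.W925.PM.Aff

/-! PM-AFF, second part (project of helper553, MP_ec5bc9_gt). -/

set_option autoImplicit false

namespace Pool.Agent.W925.PM

open Set Filter Topology Pool.Agent.W553.PM

theorem bf_pos {A B C : ℝ} (hA : 0 < A) (hD : 0 < A * C - B ^ 2) {u : P} (hu : u ≠ 0) :
    0 < bf A B C u u := by
  have h1 : A * bf A B C u u = (A * u.1 + B * u.2) ^ 2 + (A * C - B ^ 2) * u.2 ^ 2 := by
    simp only [bf]; ring
  have h2 : 0 < A * bf A B C u u := by
    rw [h1]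
    by_cases h : u.2 = 0
    · have h3 : u.1 ≠ 0 := fun h3 => hu (Prod.ext h3 h)
      rw [h]
      have : 0 < (A * u.1) ^ 2 := by positivity
      nlinarith
    · have : 0 < u.2 ^ 2 := by positivity
      nlinarith [mul_pos hD this, sq_nonneg (A * u.1 + B * u.2)]
  exact (mul_pos_iff_of_pos_left hA).1 h2

theorem bf_La (A B C : ℝ) (e₁ e₂ a b : P) :
    bf A B C (La e₁ e₂ a) (La e₁ e₂ b) =
      bf (bf A B C e₁ e₁) (bf A B C e₁ e₂) (bf A B C e₂ e₂) a b := by
  simp only [bf, La_fst, La_snd]; ring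

theorem bf_det (A B C : ℝ) (e₁ e₂ : P) :
    bf A B C e₁ e₁ * bf A B C e₂ e₂ - (bf A B C e₁ e₂) ^ 2 = (A * C - B ^ 2) * (dt e₁ e₂) ^ 2 := by
  simp only [bf, dt]; ring

theorem bf_smul_right (A B C c : ℝ) (u v : P) : bf A B C u (c • v) = c * bf A B C u v := by
  simp only [bf, Prod.smul_fst, Prod.smul_snd, smul_eq_mul]; ring

theorem bf_smul_left (A B C c : ℝ) (u v : P) : bf A B C (c • u) v = c * bf A B C u v := by
  simp only [bf, Prod.smul_fst, Prod.smul_snd, smul_eq_mul]; ring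

theorem bf_comm (A B C : ℝ) (u v : P) : bf A B C u v = bf A B C v u := by
  simp only [bf]; ring

theorem hasDerivAt_dt {f : ℝ → P} {w : P} {t : ℝ} (e : P) (hf : HasDerivAt f w t) :
    HasDerivAt (fun s => dt e (f s)) (dt e w) t := by
  have h1 : HasDerivAt (fun s => (f s).1) w.1 t :=
    (ContinuousLinearMap.fst ℝ ℝ ℝ).hasFDerivAt.comp_hasDerivAt t hf
  have h2 : HasDerivAt (fun s => (f s).2) w.2 t :=
    (ContinuousLinearMap.snd ℝ ℝ ℝ).hasFDerivAt.comp_hasDerivAt t hf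
  exact (h2.const_mul e.1).sub (h1.const_mul e.2)

theorem T_deriv0 (haff : S_aff) (hc0 : S_c0) (hnh : S_nhom) : S_deriv0 := by
  intro M d n H Hn hE O hO u hu w hw
  obtain ⟨A, B, C, hA, hdet, hbf⟩ := hE O hO
  set v := n O u with hv
  have huv : dt u v = 1 := Hn.n1 O hO u hu
  have hv0 : v ≠ 0 := by
    intro h0
    rw [h0] at huv
    simp [dt] at huv
  have hbuv : bf A B C u v = 0 := hbf u hu
  have hpu := bf_pos hA hdet hu
  have hpv := bf_pos hA hdet hv0
  set α := √(bf A B C u u) with hα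
  set β := √(bf A B C v v) with hβ
  have hαpos : 0 < α := Real.sqrt_pos.2 hpu
  have hβpos : 0 < β := Real.sqrt_pos.2 hpv
  have hα2 : α * α = bf A B C u u := Real.mul_self_sqrt hpu.le
  have hβ2 : β * β = bf A B C v v := Real.mul_self_sqrt hpv.le
  set e₁ : P := (-α) • v with he₁
  set e₂ : P := β • u with he₂
  have hD : dt e₁ e₂ = α * β := by
    have : dt e₁ e₂ = α * β * dt u v := by
      rw [he₁, he₂]; simp only [dt, Prod.smul_fst, Prod.smul_snd, smul_eq_mul]; ring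
    rw [this, huv, mul_one]
  have hDpos : 0 < dt e₁ e₂ := by rw [hD]; positivity
  have hD0 := hDpos.ne'
  obtain ⟨H', n', Hn', hn'⟩ := haff M d n H Hn O e₁ e₂ hD0
  have b11 : bf A B C e₁ e₁ = α * α * (β * β) := by
    rw [he₁, bf_smul_left, bf_smul_right, ← hβ2]; ring
  have b12 : bf A B C e₁ e₂ = 0 := by
    rw [he₁, he₂, bf_smul_left, bf_smul_right, bf_comm, hbuv]; ring
  have b22 : bf A B C e₂ e₂ = α * α * (β * β) := by
    rw [he₂, bf_smul_left, bf_smul_right, ← hα2]; ring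
  have z0 : O + (0 : P).1 • e₁ + (0 : P).2 • e₂ = O := by simp
  have hE' : ∀ Y ∈ {x : P | O + x.1 • e₁ + x.2 • e₂ ∈ M}, EllAt n' Y := by
    intro Y hY
    obtain ⟨A1, B1, C1, hA1, hdet1, hbf1⟩ := hE _ hY
    refine ⟨bf A1 B1 C1 e₁ e₁, bf A1 B1 C1 e₁ e₂, bf A1 B1 C1 e₂ e₂, ?_, ?_, ?_⟩
    · apply bf_pos hA1 hdet1
      intro h0
      rw [h0] at hD0
      simp [dt] at hD0
    · rw [bf_det]; positivity
    · intro u' hu'
      rw [← bf_La]
      have h1 : La e₁ e₂ (n' Y u') = dt e₁ e₂ • n (O + Y.1 • e₁ + Y.2 • e₂) (La e₁ e₂ u') :=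
        hn' Y u'
      rw [h1, bf_smul_right, hbf1 _ (La_ne hD0 hu'), mul_zero]
  have h0M : (0 : P) ∈ {x : P | O + x.1 • e₁ + x.2 • e₂ ∈ M} := by
    simp only [mem_setOf_eq]; rw [z0]; exact hO
  have hip : ∀ u' : P, u' ≠ 0 → ip u' (n' 0 u') = 0 := by
    intro u' hu'
    have h1 : La e₁ e₂ (n' 0 u') = dt e₁ e₂ • n (O + (0 : P).1 • e₁ + (0 : P).2 • e₂) (La e₁ e₂ u') :=
      hn' 0 u'
    rw [z0] at h1
    have h2 := bf_La A B C e₁ e₂ u' (n' 0 u')
    rw [h1, bf_smul_right, hbf _ (La_ne hD0 hu'), mul_zero, b11, b12, b22] at h2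
    have h3 : (α * α * (β * β)) * ip u' (n' 0 u') = 0 := by
      rw [h2]; simp only [bf, ip]; ring
    exact (mul_eq_zero.1 h3).resolve_left (by positivity)
  -- the derivative
  have hev : ∀ᶠ y : ℝ in 𝓝 0, O + (y * β) • u ∈ M := by
    have hc : Continuous (fun y : ℝ => O + (y * β) • u) := by fun_prop
    have : (fun y : ℝ => O + (y * β) • u) 0 ∈ M := by simpa using hO
    exact hc.continuousAt.eventually (H.opn.mem_nhds this)
  have hfun : (fun y : ℝ => -(n' (0, y) (0, 1)).2) =ᶠ[𝓝 0]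
      fun y : ℝ => -β⁻¹ * dt e₁ (n (O + (y * β) • u) u) := by
    filter_upwards [hev] with y hy
    have h1 := hn' (0, y) (0, 1)
    simp only [zero_smul, one_smul, zero_add, add_zero] at h1
    have h2 : O + y • e₂ = O + (y * β) • u := by rw [he₂, smul_smul]
    rw [h2, he₂, hnh M d n H Hn _ hy u hu β hβpos.ne'] at h1
    have h3 : dt e₁ ((n' (0, y) (0, 1)).1 • e₁ + (n' (0, y) (0, 1)).2 • β • u) =
        (n' (0, y) (0, 1)).2 * dt e₁ e₂ := by
      rw [he₂]; simp only [dt, Prod.fst_add, Prod.snd_add, Prod.smul_fst, Prod.smul_snd,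
        smul_eq_mul]; ring
    rw [h1] at h3
    have h4 : dt e₁ (dt e₁ (β • u) • β⁻¹ • n (O + (y * β) • u) u) =
        dt e₁ e₂ * (β⁻¹ * dt e₁ (n (O + (y * β) • u) u)) := by
      rw [he₂]
      generalize dt e₁ (β • u) = D
      simp only [dt, Prod.smul_fst, Prod.smul_snd, smul_eq_mul]; ring
    rw [h4, mul_comm] at h3
    have h5 := mul_right_cancel₀ hD0 h3
    rw [← h5]; ring
  have hf : HasDerivAt (fun y : ℝ => n (O + (y * β) • u) u) (β • w) 0 := by
    have h1 : HasDerivAt (fun y : ℝ => y * β) β 0 := by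
      simpa using (hasDerivAt_id (0 : ℝ)).mul_const β
    have hw' : HasDerivAt (fun t : ℝ => n (O + t • u) u) w ((fun y : ℝ => y * β) 0) := by
      simpa using hw
    exact hw'.scomp 0 h1
  have hg : HasDerivAt (fun y : ℝ => -(n' (0, y) (0, 1)).2) (-β⁻¹ * dt e₁ (β • w)) 0 :=
    ((hasDerivAt_dt e₁ hf).const_mul (-β⁻¹)).congr_of_eventuallyEq hfun
  have hc := hc0 _ _ n' H' Hn' hE' h0M hip _ hg
  have h1 : dt v w = 0 := by
    have h2 : -β⁻¹ * dt e₁ (β • w) = α * dt v w := by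
      rw [he₁]
      have : dt ((-α) • v) (β • w) = β * (-α * dt v w) := by
        simp only [dt, Prod.smul_fst, Prod.smul_snd, smul_eq_mul]; ring
      rw [this]
      field_simp
    rw [h2] at hc
    exact (mul_eq_zero.1 hc).resolve_left hαpos.ne'
  have h2 : dt u w = 0 := by
    have h3 : HasDerivAt (fun t : ℝ => dt u (n (O + t • u) u)) (dt u w) 0 := hasDerivAt_dt u hw
    have hev2 : ∀ᶠ t : ℝ in 𝓝 0, O + t • u ∈ M := by
      have hc : Continuous (fun t : ℝ => O + t • u) := by fun_prop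
      have : (fun t : ℝ => O + t • u) 0 ∈ M := by simpa using hO
      exact hc.continuousAt.eventually (H.opn.mem_nhds this)
    have h4 : (fun t : ℝ => dt u (n (O + t • u) u)) =ᶠ[𝓝 0] fun _ => 1 := by
      filter_upwards [hev2] with t ht
      exact Hn.n1 _ ht u hu
    have h5 : HasDerivAt (fun t : ℝ => dt u (n (O + t • u) u)) 0 0 :=
      (hasDerivAt_const (0 : ℝ) (1 : ℝ)).congr_of_eventuallyEq h4
    exact h3.unique h5
  have hw1 : w.1 = 0 := by
    have : w.1 * dt u v = -(dt v w) * u.1 + dt u w * v.1 := by simp only [dt]; ring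
    rw [huv, h1, h2] at this
    linarith
  have hw2 : w.2 = 0 := by
    have : w.2 * dt u v = -(dt v w) * u.2 + dt u w * v.2 := by simp only [dt]; ring
    rw [huv, h1, h2] at this
    linarith
  exact Prod.ext hw1 hw2

end Pool.Agent.W925.PM
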