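import Pool.Agent.W925.PM.Aff
import Pool.Agent.W925.PM.Deriv0

/-! PM-UNIV (project of helper553, MP_ec5bc9_gt). -/

set_option autoImplicit false

namespace Pool.Agent.W925.PM

open Set Filter Topology Pool.Agent.W553.PM

/-- squared Euclidean distance -/
def sq (u : P) : ℝ := ip u u

theorem sq_nonneg' (u : P) : 0 ≤ sq u := by
  simp only [sq, ip]; nlinarith [mul_self_nonneg u.1, mul_self_nonneg u.2]

theorem sq_pos' {u : P} (hu : u ≠ 0) : 0 < sq u := by
  have : sq u = bf 1 0 1 u u := by simp only [sq, ip, bf]; ring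
  rw [this]
  exact bf_pos one_pos (by norm_num) hu

/-- a nearest point of the complement -/
theorem exists_nearest {M : Set P} (ho : IsOpen M) (hne : M ≠ univ) (X₀ : P) :
    ∃ b, b ∉ M ∧ ∀ Z, sq (Z - X₀) < sq (b - X₀) → Z ∈ M := by
  obtain ⟨Z₁, hZ₁⟩ : ∃ Z, Z ∉ M := by
    by_contra h
    push Not at h
    exact hne (eq_univ_of_forall h)
  have hc : Continuous (fun Z : P => sq (Z - X₀)) := by unfold sq ip; fun_prop
  have hclosed : IsClosed (Mᶜ ∩ {Z | sq (Z - X₀) ≤ sq (Z₁ - X₀)}) :=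
    ho.isClosed_compl.inter (isClosed_le hc continuous_const)
  have hbdd : Bornology.IsBounded (Mᶜ ∩ {Z | sq (Z - X₀) ≤ sq (Z₁ - X₀)}) := by
    refine (Metric.isBounded_closedBall (x := X₀) (r := √(sq (Z₁ - X₀)))).subset ?_
    rintro Z ⟨_, hZ⟩
    have hZ' : sq (Z - X₀) ≤ sq (Z₁ - X₀) := hZ
    rw [Metric.mem_closedBall, dist_eq_norm, Prod.norm_def, max_le_iff]
    have h1 : sq (Z - X₀) = (Z - X₀).1 ^ 2 + (Z - X₀).2 ^ 2 := by simp only [sq, ip]; ring
    constructor
    · rw [Real.norm_eq_abs]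
      apply Real.abs_le_sqrt
      nlinarith [sq_nonneg (Z - X₀).2]
    · rw [Real.norm_eq_abs]
      apply Real.abs_le_sqrt
      nlinarith [sq_nonneg (Z - X₀).1]
  have hcomp := Metric.isCompact_of_isClosed_isBounded hclosed hbdd
  obtain ⟨b, hb, hmin⟩ := hcomp.exists_isMinOn ⟨Z₁, hZ₁, le_refl (sq (Z₁ - X₀))⟩ hc.continuousOn
  refine ⟨b, hb.1, ?_⟩
  intro Z hZ
  by_contra hZM
  have h1 : sq (Z - X₀) ≤ sq (Z₁ - X₀) := hZ.le.trans hb.2
  have h2 := isMinOn_iff.1 hmin Z ⟨hZM, h1⟩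
  linarith

theorem T_univ0 : S_univ0 := by
  intro M d H hd
  by_contra hM
  obtain ⟨X₀, hX₀⟩ := H.ne
  obtain ⟨b, hbM, hdisc⟩ := exists_nearest H.opn hM X₀
  -- vectors
  obtain ⟨E, hE⟩ : ∃ E : P, E = X₀ - b := ⟨_, rfl⟩
  have hX₀b : X₀ = b + E := by rw [hE]; abel
  subst hX₀b
  have hE0 : E ≠ 0 := by
    intro h0
    rw [h0, add_zero] at hX₀
    exact hbM hX₀
  set ρ := sq E with hρ
  have hρpos : 0 < ρ := sq_pos' hE0
  have hρ' : ρ = E.1 ^ 2 + E.2 ^ 2 := by rw [hρ]; simp only [sq, ip]; ring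
  -- points in coordinates
  let pt : ℝ → ℝ → P := fun α β => (b.1 + α * E.1 - β * E.2, b.2 + α * E.2 + β * E.1)
  have hdisc' : ∀ α β : ℝ, (α - 1) ^ 2 + β ^ 2 < 1 → pt α β ∈ M := by
    intro α β h
    apply hdisc
    have h1 : sq (pt α β - (b + E)) = ((α - 1) ^ 2 + β ^ 2) * ρ := by
      rw [hρ']; simp only [pt, sq, ip, Prod.fst_sub, Prod.snd_sub, Prod.fst_add, Prod.snd_add]; ring
    have h2 : sq (b - (b + E)) = ρ := by
      rw [hρ']; simp only [sq, ip, Prod.fst_sub, Prod.snd_sub, Prod.fst_add, Prod.snd_add]; ring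
    rw [h1, h2]
    nlinarith
  -- supporting line
  have hsup : ∀ Z ∈ M, 0 < ip E (Z - b) := by
    obtain ⟨f, hf⟩ := geometric_hahn_banach_open_point H.cvx H.opn hbM
    have hf' : ∀ α β : ℝ, (α - 1) ^ 2 + β ^ 2 < 1 →
        α * f (E.1, E.2) + β * f (-E.2, E.1) < 0 := by
      intro α β h
      have h1 := hf _ (hdisc' α β h)
      have h2 : pt α β = b + α • ((E.1, E.2) : P) + β • ((-E.2, E.1) : P) := by
        apply Prod.ext
        · simp only [pt, Prod.fst_add, Prod.smul_fst, smul_eq_mul]; ring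
        · simp only [pt, Prod.snd_add, Prod.smul_snd, smul_eq_mul]
      rw [h2, map_add, map_add, map_smul, map_smul, smul_eq_mul, smul_eq_mul] at h1
      linarith
    set c := f (E.1, E.2) with hc
    set c' := f (-E.2, E.1) with hc'
    have hcneg : c < 0 := by
      have := hf' 1 0 (by norm_num)
      linarith
    have hc'0 : c' = 0 := by
      have key : ∀ δ : ℝ, δ ≠ 0 → δ ^ 2 < 1 → δ ^ 2 * c + δ * c' < 0 := by
        intro δ h0 hδ
        apply hf'
        have : 0 < δ ^ 2 := by positivity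
        nlinarith
      by_contra hne
      -- choose δ = small multiple of c'
      have hs : 0 < -c := by linarith
      set t : ℝ := 1 / (2 * (1 + |c'| + (-c))) with ht
      have hden : 0 < 2 * (1 + |c'| + (-c)) := by positivity
      have htpos : 0 < t := by positivity
      have h1 : t * (2 * (1 + |c'| + (-c))) = 1 := by rw [ht]; field_simp
      have habs : 0 ≤ |c'| := abs_nonneg _
      have h2 : t * |c'| < 1 := by nlinarith [mul_nonneg htpos.le habs, mul_pos htpos hs]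
      have h3 : t * (-c) < 1 := by nlinarith [mul_nonneg htpos.le habs, mul_pos htpos hs]
      have h4 := key (t * c') (mul_ne_zero htpos.ne' hne) (by
        have : (t * c') ^ 2 = (t * |c'|) ^ 2 := by rw [mul_pow, mul_pow, sq_abs]
        rw [this]
        have h5 : 0 ≤ t * |c'| := by positivity
        nlinarith)
      have h6 : (t * c') ^ 2 * c + t * c' * c' = t * c' ^ 2 * (1 - t * (-c)) := by ring
      rw [h6] at h4
      have h7 : 0 < t * c' ^ 2 := by positivity
      nlinarith [mul_pos h7 (sub_pos.2 h3)]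
    intro Z hZ
    have h1 := hf Z hZ
    have h2 : ρ • (Z - b) = ip E (Z - b) • ((E.1, E.2) : P) +
        (E.1 * (Z - b).2 - E.2 * (Z - b).1) • ((-E.2, E.1) : P) := by
      rw [hρ']
      apply Prod.ext
      · simp only [ip, Prod.fst_add, Prod.smul_fst, smul_eq_mul]; ring
      · simp only [ip, Prod.snd_add, Prod.smul_snd, smul_eq_mul]; ring
    have h3 := congrArg f h2
    rw [map_smul, map_add, map_smul, map_smul, ← hc, ← hc', hc'0, smul_zero, add_zero,
      smul_eq_mul, smul_eq_mul, map_sub] at h3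
    have h4 : ρ * (f Z - f b) < 0 := by
      have : f Z - f b < 0 := by linarith
      nlinarith
    rw [h3] at h4
    by_contra hcon
    push Not at hcon
    nlinarith
  -- the line
  let W : P := (E.1 - E.2, E.2 + E.1)
  have hW0 : W ≠ 0 := by
    intro h0
    have h1 : E.1 - E.2 = 0 := congrArg Prod.fst h0
    have h2 : E.2 + E.1 = 0 := congrArg Prod.snd h0
    apply hE0
    exact Prod.ext (by simp only [Prod.fst_zero]; linarith) (by simp only [Prod.snd_zero]; linarith)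
  have hOM : pt (1 / 2) (1 / 2) ∈ M := hdisc' _ _ (by norm_num)
  have hline : ∀ t : ℝ, pt (1 / 2) (1 / 2) + t • W = pt (1 / 2 + t) (1 / 2 + t) := by
    intro t
    apply Prod.ext
    · simp only [pt, W, Prod.fst_add, Prod.smul_fst, smul_eq_mul]; ring
    · simp only [pt, W, Prod.snd_add, Prod.smul_snd, smul_eq_mul]; ring
  have hipE : ∀ α β : ℝ, ip E (pt α β - b) = α * ρ := by
    intro α β
    rw [hρ']; simp only [pt, ip, Prod.fst_sub, Prod.snd_sub]; ring
  have hdpt : ∀ α β α' β' : ℝ, pt α β ∈ M → pt α' β' ∈ M →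
      d (pt α β) (pt α' β') = √(((α - α') ^ 2 + (β - β') ^ 2) * ρ) := by
    intro α β α' β' h h'
    rw [hd _ h _ h']
    congr 1
    rw [hρ']; simp only [pt, ip, Prod.fst_sub, Prod.snd_sub]; ring
  have hhL : ∀ α β : ℝ, pt α β ∈ M → α + β < 0 →
      hL M d (pt (1 / 2) (1 / 2)) W (pt α β) = √((α ^ 2 + β ^ 2) * ρ) := by
    intro α β hX hαβ
    apply le_antisymm
    · have h1 : ∀ᶠ t : ℝ in 𝓝[>] 0, hL M d (pt (1 / 2) (1 / 2)) W (pt α β) ≤
          √(((α - t) ^ 2 + (β - t) ^ 2) * ρ) := by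
        filter_upwards [Ioo_mem_nhdsGT (zero_lt_one)] with t ht
        have h2 : pt t t ∈ M := hdisc' t t (by nlinarith [ht.1, ht.2])
        rw [← hdpt α β t t hX h2]
        apply hL_le H hX h2
        refine ⟨t - 1 / 2, ?_⟩
        rw [hline]; congr 1 <;> ring
      have h3 : Tendsto (fun t : ℝ => √(((α - t) ^ 2 + (β - t) ^ 2) * ρ)) (𝓝[>] 0)
          (𝓝 √(((α - 0) ^ 2 + (β - 0) ^ 2) * ρ)) := by
        have : Continuous (fun t : ℝ => √(((α - t) ^ 2 + (β - t) ^ 2) * ρ)) := by fun_prop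
        exact (this.tendsto 0).mono_left nhdsWithin_le_nhds
      rw [sub_zero, sub_zero] at h3
      exact ge_of_tendsto h3 h1
    · apply le_hL hOM
      intro t ht
      rw [hline] at ht ⊢
      rw [hdpt _ _ _ _ hX ht]
      apply Real.sqrt_le_sqrt
      apply mul_le_mul_of_nonneg_right _ hρpos.le
      have h1 := hsup _ ht
      rw [hipE] at h1
      have h2 : 0 < 1 / 2 + t := by
        by_contra hcon
        push Not at hcon
        nlinarith
      nlinarith
  -- the focus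
  have hFM : pt (8 / 10) (-4 / 10) ∈ M := hdisc' _ _ (by norm_num)
  have hFL : pt (8 / 10) (-4 / 10) ∉ Ln (pt (1 / 2) (1 / 2)) W := by
    rintro ⟨t, ht⟩
    rw [hline] at ht
    have h1 := congrArg (fun Z => ip E (Z - b)) ht
    simp only [hipE] at h1
    have h2 : (8 / 10 : ℝ) = 1 / 2 + t := mul_right_cancel₀ hρpos.ne' h1
    have h3 : ∀ α β : ℝ, ip (-E.2, E.1) (pt α β - b) = β * ρ := by
      intro α β
      rw [hρ']; simp only [pt, ip, Prod.fst_sub, Prod.snd_sub]; ring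
    have h4 := congrArg (fun Z => ip (-E.2, E.1) (Z - b)) ht
    simp only [h3] at h4
    have h5 : (-4 / 10 : ℝ) = 1 / 2 + t := mul_right_cancel₀ hρpos.ne' h4
    linarith
  obtain ⟨pa, pb, pc, hpbc, hset⟩ := H.conic _ hOM W hW0 _ hFM hFL
  have hpts : ∀ τ : ℝ, 0 ≤ τ → τ < 1 / 30 → pt (3 / 10 + τ) (-4 / 10 + 2 * τ) ∈ Par pa pb pc := by
    intro τ h0 h1
    have hXM : pt (3 / 10 + τ) (-4 / 10 + 2 * τ) ∈ M := hdisc' _ _ (by nlinarith)
    refine ((Set.ext_iff.1 hset _).1 ⟨hXM, ?_⟩).2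
    rw [hhL _ _ hXM (by linarith), hdpt _ _ _ _ hXM hFM]
    congr 1
    ring
  obtain ⟨t1, ht1⟩ := hpts 0 le_rfl (by norm_num)
  obtain ⟨t2, ht2⟩ := hpts (1 / 100) (by norm_num) (by norm_num)
  obtain ⟨t3, ht3⟩ := hpts (2 / 100) (by norm_num) (by norm_num)
  have a1 := congrArg Prod.fst ht1
  have a2 := congrArg Prod.fst ht2
  have a3 := congrArg Prod.fst ht3
  have b1 := congrArg Prod.snd ht1
  have b2 := congrArg Prod.snd ht2
  have b3 := congrArg Prod.snd ht3
  simp only [pt, Prod.fst_add, Prod.snd_add, Prod.smul_fst, Prod.smul_snd, smul_eq_mul]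
    at a1 a2 a3 b1 b2 b3
  have hcol : (t2 - t1) * (t3 - t1) * (t3 - t2) * dt pb pc = 0 := by
    have e1 : (t2 - t1) * (t3 - t1) * (t3 - t2) * dt pb pc =
        ((t2 - t1) * pb.1 + (t2 ^ 2 - t1 ^ 2) * pc.1) * ((t3 - t1) * pb.2 + (t3 ^ 2 - t1 ^ 2) * pc.2)
        - ((t2 - t1) * pb.2 + (t2 ^ 2 - t1 ^ 2) * pc.2) *
          ((t3 - t1) * pb.1 + (t3 ^ 2 - t1 ^ 2) * pc.1) := by
      simp only [dt]; ring
    have f1 : (t2 - t1) * pb.1 + (t2 ^ 2 - t1 ^ 2) * pc.1 = 1 / 100 * E.1 - 2 / 100 * E.2 := by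
      linear_combination a2 - a1
    have f2 : (t2 - t1) * pb.2 + (t2 ^ 2 - t1 ^ 2) * pc.2 = 1 / 100 * E.2 + 2 / 100 * E.1 := by
      linear_combination b2 - b1
    have f3 : (t3 - t1) * pb.1 + (t3 ^ 2 - t1 ^ 2) * pc.1 = 2 / 100 * E.1 - 4 / 100 * E.2 := by
      linear_combination a3 - a1
    have f4 : (t3 - t1) * pb.2 + (t3 ^ 2 - t1 ^ 2) * pc.2 = 2 / 100 * E.2 + 4 / 100 * E.1 := by
      linear_combination b3 - b1
    rw [e1, f1, f2, f3, f4]; ring
  have hne12 : t2 - t1 ≠ 0 := by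
    intro h
    have ht : t2 = t1 := by linarith
    rw [ht] at a2 b2
    have g1 : 1 / 100 * E.1 - 2 / 100 * E.2 = 0 := by linear_combination a1 - a2
    have g2 : 1 / 100 * E.2 + 2 / 100 * E.1 = 0 := by linear_combination b1 - b2
    exact hE0 (Prod.ext (by simp only [Prod.fst_zero]; linarith)
      (by simp only [Prod.snd_zero]; linarith))
  have hne13 : t3 - t1 ≠ 0 := by
    intro h
    have ht : t3 = t1 := by linarith
    rw [ht] at a3 b3
    have g1 : 2 / 100 * E.1 - 4 / 100 * E.2 = 0 := by linear_combination a1 - a3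
    have g2 : 2 / 100 * E.2 + 4 / 100 * E.1 = 0 := by linear_combination b1 - b3
    exact hE0 (Prod.ext (by simp only [Prod.fst_zero]; linarith)
      (by simp only [Prod.snd_zero]; linarith))
  have hne23 : t3 - t2 ≠ 0 := by
    intro h
    have ht : t3 = t2 := by linarith
    rw [ht] at a3 b3
    have g1 : 1 / 100 * E.1 - 2 / 100 * E.2 = 0 := by linear_combination a2 - a3
    have g2 : 1 / 100 * E.2 + 2 / 100 * E.1 = 0 := by linear_combination b2 - b3
    exact hE0 (Prod.ext (by simp only [Prod.fst_zero]; linarith)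
      (by simp only [Prod.snd_zero]; linarith))
  exact mul_ne_zero (mul_ne_zero (mul_ne_zero hne12 hne13) hne23) hpbc hcol

theorem T_finA (hperp : S_perp) (hell : S_ell) (hconst : S_const) (hdir : S_dir)
    (hnorm : S_norm) : S_finA := by
  intro M d H
  obtain ⟨n, Hn⟩ := hperp M d H
  have hE : ∀ Y ∈ M, EllAt n Y := fun Y hY => hell M d n H Hn Y hY
  have hc : ∀ O ∈ M, ∀ u : P, u ≠ 0 → ∀ t : ℝ, O + t • u ∈ M → n (O + t • u) u = n O u :=
    hconst M d n H Hn
  have hd : ∀ O ∈ M, ∀ O' ∈ M, ∀ u : P, u ≠ 0 → n O u = n O' u := hdir M d n H Hn hE hc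
  obtain ⟨A, B, C, hA, hdet, hdist⟩ := hnorm M d n H Hn hE hd
  have hM : M = univ := by
    set s := √A with hs
    set r := √(A * C - B ^ 2) with hr
    have hspos : 0 < s := Real.sqrt_pos.2 hA
    have hrpos : 0 < r := Real.sqrt_pos.2 hdet
    have hs2 : s ^ 2 = A := Real.sq_sqrt hA.le
    have hr2 : r ^ 2 = A * C - B ^ 2 := Real.sq_sqrt hdet.le
    let e₁ : P := (1 / s, 0)
    let e₂ : P := (-B / (s * r), s / r)
    have hD : dt e₁ e₂ ≠ 0 := by
      simp only [dt, e₁, e₂]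
      have : 1 / s * (s / r) - 0 * (-B / (s * r)) = 1 / r := by field_simp; ring
      rw [this]; positivity
    have H' := aff_met (O := 0) hD H
    have hdist' : ∀ x ∈ {x : P | Ax 0 e₁ e₂ x ∈ M}, ∀ y ∈ {x : P | Ax 0 e₁ e₂ x ∈ M},
        d (Ax 0 e₁ e₂ x) (Ax 0 e₁ e₂ y) = √(ip (x - y) (x - y)) := by
      intro x hx y hy
      rw [hdist _ hx _ hy, Ax_sub, bf_La]
      congr 1
      have c11 : bf A B C e₁ e₁ = 1 := by
        simp only [bf, e₁]
        field_simp
        rw [hs2]; ring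
      have c12 : bf A B C e₁ e₂ = 0 := by
        simp only [bf, e₁, e₂]
        rw [← hs2]
        field_simp
        ring
      have c22 : bf A B C e₂ e₂ = 1 := by
        simp only [bf, e₂]
        have h1 : A * (-B / (s * r)) * (-B / (s * r)) + B * (-B / (s * r) * (s / r) +
            s / r * (-B / (s * r))) + C * (s / r) * (s / r) =
            (A * B ^ 2 - 2 * B ^ 2 * s ^ 2 + C * (s ^ 2) ^ 2) / (s ^ 2 * r ^ 2) := by
          field_simp; ring
        rw [h1, hs2, hr2, div_eq_one_iff_eq (by positivity)]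
        ring
      rw [c11, c12, c22]
      simp only [bf, ip]; ring
    have hu := T_univ0 _ _ H' hdist'
    apply eq_univ_of_forall
    intro Z
    obtain ⟨x, rfl⟩ := Ax_surj (O := 0) hD Z
    have : x ∈ {x : P | Ax 0 e₁ e₂ x ∈ M} := by rw [hu]; trivial
    exact this
  refine ⟨hM, A, B, C, hA, hdet, fun x y => hdist x (by rw [hM]; trivial) y (by rw [hM]; trivial)⟩

end Pool.Agent.W925.PM
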