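import Pool.Agent.W845.PM.Base

/-!
# PM-J: leaf removal recursion
-/

set_option autoImplicit false
open scoped Classical
open Filter Topology MeasureTheory ProbabilityTheory
open scoped ENNReal NNReal BigOperators

namespace Pool.Agent.W925.PM

open Pool.Agent.W845.PM

noncomputable section

theorem J_succ {V : Type} (k : ℕ) (G : SimpleGraph V) (v : V) :
    J (k + 1) G v ↔ ∀ w, G.Adj v w → ¬ J k (del G v) w := Iff.rfl

theorem J_zero {V : Type} (G : SimpleGraph V) (v : V) : ¬ J 0 G v := fun h => h

theorem not_near_self {V : Type} {j : ℕ} {G : SimpleGraph V} {v b : V} (h : ¬ near j G v b) :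
    v ≠ b := by
  rintro rfl
  exact h ⟨SimpleGraph.Walk.nil, Nat.zero_le _⟩

theorem not_near_step {V : Type} {j : ℕ} {G : SimpleGraph V} {v b w : V}
    (h : ¬ near (j + 1) G v b) (hw : G.Adj v w) : ¬ near j (del G v) w b := fun hn =>
  h (near_cons hw (near_mono le_rfl (del_le G v) hn))

theorem del_adj_iff {V : Type} {G : SimpleGraph V} {v b w : V} (hv : v ≠ b) (hw : w ≠ b) :
    (del G b).Adj v w ↔ G.Adj v w := ⟨fun h => h.1, fun h => ⟨h, hv, hw⟩⟩

theorem ju : S_JU := by
  intro V _ k
  induction k with
  | zero =>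
    intro G v
    rw [if_neg (J_zero G v)]
    rfl
  | succ k ih =>
    intro G v
    rw [U]
    simp only [gB]
    by_cases h : J (k + 1) G v
    · rw [if_pos h]
      have : ∑ w : V, (if G.Adj v w then U gB 0 k (del G v) w else 0) = 0 :=
        Finset.sum_eq_zero fun w _ => by
          split_ifs with hw
          · rw [ih, if_neg (h w hw)]
          · rfl
      rw [this, ENNReal.inv_zero]
    · rw [if_neg h]
      have h' : ∃ w, G.Adj v w ∧ J k (del G v) w := by
        by_contra hc
        push Not at hc
        exact h hc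
      obtain ⟨w, hw, hj⟩ := h'
      rw [ENNReal.inv_eq_zero, ENNReal.sum_eq_top]
      exact ⟨w, Finset.mem_univ _, by rw [if_pos hw, ih, if_pos hj]⟩

theorem jx_aux {V : Type} : ∀ (m i j : ℕ), i + j = m → ∀ (G : SimpleGraph V) (v w : V),
    J (2 * i) G v → G.Adj v w → ¬ J (2 * j) (del G v) w := by
  intro m
  induction m with
  | zero =>
    intro i j hij G v w h1 _ _
    have : i = 0 := by omega
    subst this
    exact h1
  | succ m ih =>
    intro i j hij G v w h1 h2 h3
    rcases i with _ | i
    · exact h1
    · have h4 : ¬ J (2 * i + 1) (del G v) w := h1 w h2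
      have h5 : ∃ x, (del G v).Adj w x ∧ J (2 * i) (del (del G v) w) x := by
        by_contra hc
        push Not at hc
        exact h4 hc
      obtain ⟨x, hx, hJ⟩ := h5
      exact ih j i (by omega) (del G v) w x h3 hx hJ

theorem jx : S_JX := fun _ i j G v w => jx_aux (i + j) i j rfl G v w

theorem jmono : S_JMONO := by
  intro V k
  induction k with
  | zero =>
    intro G v h
    exact absurd h (J_zero G v)
  | succ k ih =>
    intro G v h
    have e1 : 2 * (k + 1) = 2 * k + 1 + 1 := by ring
    have e2 : 2 * (k + 1) + 2 = (2 * k + 2) + 1 + 1 := by ring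
    rw [e1] at h
    rw [e2]
    intro w hw
    have h4 : ¬ J (2 * k + 1) (del G v) w := h w hw
    have h5 : ∃ x, (del G v).Adj w x ∧ J (2 * k) (del (del G v) w) x := by
      by_contra hc
      push Not at hc
      exact h4 hc
    obtain ⟨x, hx, hJ⟩ := h5
    intro hc
    exact hc x hx (ih _ _ hJ)

theorem jloc : S_JLOC := by
  intro V j
  induction j with
  | zero =>
    intro G v b _
    exact Iff.rfl
  | succ j ih =>
    intro G v b h
    have hvb := not_near_self h
    have hnadj : ∀ w, G.Adj v w → w ≠ b := by
      intro w hw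
      exact not_near_self (not_near_step h hw)
    rw [J_succ, J_succ]
    constructor
    · intro hJ w hw
      have hw' : G.Adj v w := hw.1
      rw [del_comm, ← ih (del G v) w b (not_near_step h hw')]
      exact hJ w hw'
    · intro hJ w hw
      have hw' : (del G b).Adj v w := ⟨hw, hvb, hnadj w hw⟩
      rw [ih (del G v) w b (not_near_step h hw), ← del_comm]
      exact hJ w hw'

/-! ## PM-U -/

theorem uext2 (g : ℕ → ℝ≥0∞ → ℝ≥0∞) (u0 : ℝ≥0∞) (n : ℕ) : ∀ (k : ℕ) (K : SimpleGraph (Fin n))
    (w : Fin n), U g u0 k (ext K ∅) (Fin.castSucc w) = U g u0 k K w := by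
  intro k
  induction k with
  | zero => intro K w; rfl
  | succ k ih =>
    intro K w
    rw [U, U, Fin.sum_univ_castSucc]
    have hlast : ¬ (ext K (∅ : Finset (Fin n))).Adj (Fin.castSucc w) (Fin.last n) := by
      intro h
      have := (ext_adj_last K ∅ w).1 h.symm
      simp at this
    rw [if_neg hlast, add_zero]
    congr 1
    refine Finset.sum_congr rfl fun x _ => ?_
    simp only [ext_adj_castSucc, del_ext_castSucc, ih]

theorem uext : S_UEXT := by
  intro g u0 k n K N
  refine ⟨?_, uext2 g u0 n k K⟩
  rw [U, Fin.sum_univ_castSucc]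
  have hlast : ¬ (ext K N).Adj (Fin.last n) (Fin.last n) := SimpleGraph.irrefl _
  rw [if_neg hlast, add_zero]
  congr 1
  simp only [ext_adj_last, del_ext_last, uext2]
  rw [← Finset.sum_filter]
  congr 1
  ext x
  simp

theorem del_comap {V : Type} (G : SimpleGraph V) (σ : Equiv.Perm V) (v : V) :
    del (G.comap σ) v = (del G (σ v)).comap σ := by
  ext a b
  simp only [del, SimpleGraph.comap_adj, ne_eq, EmbeddingLike.apply_eq_iff_eq]

theorem uiso : S_UISO := by
  intro g u0 k n
  induction k with
  | zero => intro G σ v; rfl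
  | succ k ih =>
    intro G σ v
    rw [U, U, ← Equiv.sum_comp σ (fun w => if G.Adj (σ v) w then U g u0 k (del G (σ v)) w else 0)]
    congr 1
    refine Finset.sum_congr rfl fun x _ => ?_
    rw [del_comap, ih]
    rfl

theorem uloc : S_ULOC := by
  intro g u0 V _ j
  induction j with
  | zero => intro G v b _; rfl
  | succ j ih =>
    intro G v b h
    have hvb := not_near_self h
    rw [U, U]
    congr 1
    refine Finset.sum_congr rfl fun w _ => ?_
    by_cases hw : G.Adj v w
    · have hwb : w ≠ b := not_near_self (not_near_step h hw)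
      rw [if_pos hw, if_pos ((del_adj_iff hvb hwb).2 hw), ih _ _ _ (not_near_step h hw), del_comm]
    · rw [if_neg hw, if_neg (fun h' => hw h'.1)]

end

end Pool.Agent.W925.PM
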